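import Pool.Agent.Q55.RomOdd

/-!
# Odd numbers `p + m (m + 1)` with `m ≤ δ log x`, both `p` and `m` from arbitrary dense sets
-/

set_option autoImplicit false

open Finset Filter

namespace Pool.Agent.Results.MP_3f6540_nt.LogarithmicPronics

/-- the `n` in `[1, x]` such that `2 n - 1 = p + m (m + 1)` (written `2 n = p + (m (m + 1) + 1)`) for some `p` in `P`
and some `m` in `S` -/
noncomputable def sums (P S : Finset ℕ) (x : ℕ) : Finset ℕ := by
  classical
  exact (Icc 1 x).filter (fun n => ∃ p ∈ P, ∃ m ∈ S, 2 * n = p + (m * (m + 1) + 1))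

/-- **Theorem.** (1) There is `C > 0` such that for all large `x`, all `M ≤ x ^ (1 / 40)`, ALL sets `S ⊆ [1, M]` and
ALL sets `P` of primes in `[3, x]` the number `N` of the odd numbers up to `2 x` which are of the form `p + m (m + 1)`
with `p ∈ P`, `m ∈ S` satisfies `(#P #S) ^ 2 ≤ N (#P #S + C M ^ 2 x / (log x) ^ 2)`.
(2) For all `α, β, δ > 0` there is `c > 0` such that for all large `x`, ALL sets `S` of at least `β log x` positive
integers up to `δ log x` and ALL sets `P` of at least `α x / log x` primes up to `x`, at least `c x` of the odd numbers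
up to `2 x` are of this form. -/
theorem result :
    (∃ C : ℝ, 0 < C ∧ ∀ᶠ x : ℕ in atTop, ∀ M : ℕ, (M : ℝ) ≤ (x : ℝ) ^ (1 / 40 : ℝ) →
      ∀ S ⊆ Icc 1 M, ∀ P ⊆ Icc 3 x, (∀ p ∈ P, p.Prime) →
        ((P.card : ℝ) * S.card) ^ 2 ≤
          (sums P S x).card * ((P.card : ℝ) * S.card + C * ((M : ℝ) ^ 2 * x / Real.log x ^ 2))) ∧
    ∀ α β δ : ℝ, 0 < α → 0 < β → 0 < δ → ∃ c : ℝ, 0 < c ∧ ∀ᶠ x : ℕ in atTop,
      ∀ S : Finset ℕ, (∀ m ∈ S, 1 ≤ m ∧ (m : ℝ) ≤ δ * Real.log x) → β * Real.log x ≤ S.card →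
      ∀ P : Finset ℕ, (∀ p ∈ P, p.Prime ∧ p ≤ x) → α * (x / Real.log x) ≤ P.card →
        c * x ≤ (sums P S x).card := by
  have hF : StrictMono (fun m : ℕ => m * (m + 1) + 1) :=
    strictMono_nat_of_lt_succ fun n => by
      show n * (n + 1) + 1 < (n + 1) * (n + 1 + 1) + 1
      nlinarith
  have hh : Function.Injective (fun m : ℕ => 2 * m + 1) := by
    intro a b hab
    have : 2 * a + 1 = 2 * b + 1 := hab
    omega
  exact Pool.Agent.Q55.RomOdd.gen (fun m => m * (m + 1) + 1) (fun m => 2 * m + 1) 2 0 hF.injective hh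
    (by
      intro m m'
      have e1 : (2 * m + 1) ^ 2 = 4 * (m * (m + 1)) + 1 := by ring
      have e2 : (2 * m' + 1) ^ 2 = 4 * (m' * (m' + 1)) + 1 := by ring
      simp only [Nat.dist, e1, e2]
      generalize m * (m + 1) = a
      generalize m' * (m' + 1) = b
      omega)
    (fun m hm => by
      show 1 ≤ 2 * m + 1 ∧ 2 * m + 1 ≤ 3 * m
      omega)
    (by
      intro m hm
      have h1 : m ≤ m ^ 2 := Nat.le_self_pow (by norm_num) m
      have h2 : m * (m + 1) = m ^ 2 + m := by ring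
      have h3 := Nat.even_mul_succ_self m
      obtain ⟨r, hr⟩ := h3
      show 3 ≤ m * (m + 1) + 1 ∧ (m * (m + 1) + 1) % 2 = 1 ∧ m * (m + 1) + 1 ≤ 4 * m ^ 2
      refine ⟨?_, ?_, ?_⟩ <;> omega)

end Pool.Agent.Results.MP_3f6540_nt.LogarithmicPronics
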